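import Pool.Agent.helper32.PN.Spec

/-!
# Project PN, row EXC2 (finite computation)

States are encoded by bit masks: the bead `(c, i)` is the bit `2 i + c`.
-/

set_option autoImplicit false

namespace Pool.Agent.PN

open Module Polynomial Pool.Agent.helper27.PC

/-! ### Encoding -/

def EXC2_enc (l : Lab) : ℕ := 2 * l.2 + l.1.toNat

def EXC2_dec (n : ℕ) : Lab := (decide (n % 2 = 1), n / 2)

theorem EXC2_enc_lt (l : Lab) : l.1.toNat < 2 := by
  cases l.1 <;> decide

theorem EXC2_dec_enc (l : Lab) : EXC2_dec (EXC2_enc l) = l := by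
  obtain ⟨c, i⟩ := l
  unfold EXC2_dec EXC2_enc
  cases c
  · simp
  · simp
    omega

theorem EXC2_enc_dec (n : ℕ) : EXC2_enc (EXC2_dec n) = n := by
  unfold EXC2_dec EXC2_enc
  rcases Nat.mod_two_eq_zero_or_one n with h | h
  · simp only [h]
    simp
    omega
  · simp only [h]
    simp
    omega

theorem EXC2_enc_inj {l l' : Lab} (h : EXC2_enc l = EXC2_enc l') : l = l' := by
  rw [← EXC2_dec_enc l, h, EXC2_dec_enc]

/-- `M` is the mask of `S` -/
def EXC2_Rel (M : ℕ) (S : St) : Prop := ∀ l : Lab, l ∈ S ↔ M.testBit (EXC2_enc l) = true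

def EXC2_Bd (b M : ℕ) : Prop := ∀ n, M.testBit n = true → n < b

theorem EXC2_uniq {M : ℕ} {S S' : St} (h : EXC2_Rel M S) (h' : EXC2_Rel M S') : S = S' := by
  ext l
  rw [h l, h' l]

theorem EXC2_uniq' {M M' : ℕ} {S : St} (h : EXC2_Rel M S) (h' : EXC2_Rel M' S) : M = M' := by
  apply Nat.eq_of_testBit_eq
  intro n
  have h1 := h (EXC2_dec n)
  have h2 := h' (EXC2_dec n)
  rw [EXC2_enc_dec] at h1 h2
  rw [Bool.eq_iff_iff, ← h1, ← h2]

/-- flip two bits -/
def EXC2_flip (M n n' : ℕ) : ℕ := M ^^^ 2 ^ n ^^^ 2 ^ n'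

theorem EXC2_flip_rel {M : ℕ} {S : St} (h : EXC2_Rel M S) {x y : Lab} (hx : x ∈ S) (hy : y ∉ S) :
    EXC2_Rel (EXC2_flip M (EXC2_enc x) (EXC2_enc y)) (insert y (S.erase x)) := by
  intro l
  unfold EXC2_flip
  rw [Nat.testBit_xor, Nat.testBit_xor, Nat.testBit_two_pow, Nat.testBit_two_pow, Finset.mem_insert,
    Finset.mem_erase, h l]
  have hxM := (h x).mp hx
  have hyM : M.testBit (EXC2_enc y) = false := by
    rw [← Bool.not_eq_true, ← h y]
    exact hy
  have hxy : x ≠ y := by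
    rintro rfl
    exact hy hx
  by_cases h1 : l = y
  · subst h1
    have h2 : EXC2_enc x ≠ EXC2_enc l := fun h3 => hxy (EXC2_enc_inj h3)
    simp [hyM, h2]
  · by_cases h2 : l = x
    · subst h2
      have h3 : EXC2_enc y ≠ EXC2_enc l := fun h4 => hxy (EXC2_enc_inj h4).symm
      simp [hxM, h3, h1]
    · have h3 : EXC2_enc y ≠ EXC2_enc l := fun h4 => h1 (EXC2_enc_inj h4).symm
      have h4 : EXC2_enc x ≠ EXC2_enc l := fun h5 => h2 (EXC2_enc_inj h5).symm
      simp [h1, h2, h3, h4]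

theorem EXC2_flip_bd {b b' M n n' : ℕ} (h : EXC2_Bd b M) (hb : b ≤ b') (hn : n < b') (hn' : n' < b') :
    EXC2_Bd b' (EXC2_flip M n n') := by
  intro k hk
  by_contra hc
  rw [not_lt] at hc
  unfold EXC2_flip at hk
  rw [Nat.testBit_xor, Nat.testBit_xor, Nat.testBit_two_pow, Nat.testBit_two_pow] at hk
  have h1 : M.testBit k = false := by
    rw [← Bool.not_eq_true]
    intro h2
    have := h k h2
    omega
  have h2 : n ≠ k := by omega
  have h3 : n' ≠ k := by omega
  simp [h1, h2, h3] at hk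

/-! ### Sums -/

def EXC2_sum {R : Type} [Zero R] [Add R] : ℕ → (ℕ → R) → R
  | 0, _ => 0
  | n + 1, f => EXC2_sum n f + f n

theorem EXC2_sum_eq {R : Type} [AddCommMonoid R] (n : ℕ) (f : ℕ → R) :
    EXC2_sum n f = ∑ i ∈ Finset.range n, f i := by
  induction n with
  | zero => rfl
  | succ n ih => rw [Finset.sum_range_succ, ← ih]; rfl

theorem EXC2_sumS {R : Type} [AddCommMonoid R] {M b : ℕ} {S : St} (h : EXC2_Rel M S) (hb : EXC2_Bd b M)
    (F : Lab → R) : ∑ l ∈ S, F l = ∑ n ∈ Finset.range b, if M.testBit n = true then F (EXC2_dec n) else 0 := by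
  rw [← Finset.sum_filter]
  refine Finset.sum_nbij' EXC2_enc EXC2_dec ?_ ?_ ?_ ?_ ?_
  · intro l hl
    rw [Finset.mem_filter, Finset.mem_range]
    exact ⟨hb _ ((h l).mp hl), (h l).mp hl⟩
  · intro n hn
    rw [Finset.mem_filter] at hn
    rw [h, EXC2_enc_dec]
    exact hn.2
  · intro l _
    exact EXC2_dec_enc l
  · intro n _
    exact EXC2_enc_dec n
  · intro l _
    rw [EXC2_dec_enc]

theorem EXC2_enc_up (a : ℕ) (l : Lab) : EXC2_enc (up a l) = EXC2_enc l + 2 * a := by
  unfold EXC2_enc up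
  simp only
  ring

theorem EXC2_enc_dn (a n : ℕ) (h : a ≤ (EXC2_dec n).2) : EXC2_enc (dn a (EXC2_dec n)) = n - 2 * a := by
  have h1 := EXC2_enc_dec n
  unfold EXC2_enc dn
  unfold EXC2_enc at h1
  simp only
  omega

/-- sum over the addable places -/
theorem EXC2_sumA {R : Type} [AddCommMonoid R] {M b : ℕ} {S : St} (h : EXC2_Rel M S) (hb : EXC2_Bd b M) (a : ℕ)
    (F : Lab → R) : ∑ l ∈ addable a S, F l =
      EXC2_sum b fun n => if (M.testBit n && !M.testBit (n + 2 * a)) = true then F (EXC2_dec n) else 0 := by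
  rw [EXC2_sum_eq]
  unfold addable
  rw [Finset.sum_filter, EXC2_sumS h hb]
  refine Finset.sum_congr rfl fun n _ => ?_
  have h1 : up a (EXC2_dec n) ∉ S ↔ M.testBit (n + 2 * a) = false := by
    rw [h, EXC2_enc_up, EXC2_enc_dec, Bool.not_eq_true]
  by_cases h2 : M.testBit n = true
  · by_cases h3 : M.testBit (n + 2 * a) = false
    · rw [if_pos h2, if_pos (h1.mpr h3), if_pos (by rw [h2, h3]; rfl)]
    · rw [if_pos h2, if_neg (fun h4 => h3 (h1.mp h4))]
      rw [Bool.not_eq_false] at h3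
      rw [if_neg (by rw [h2, h3]; decide)]
  · rw [if_neg h2]
    rw [Bool.not_eq_true] at h2
    rw [if_neg (by rw [h2]; simp)]

/-- sum over the removable places, `a = 1` -/
theorem EXC2_sumR {R : Type} [AddCommMonoid R] {M b : ℕ} {S : St} (h : EXC2_Rel M S) (hb : EXC2_Bd b M)
    (F : Lab → R) : ∑ l ∈ remv 1 S, F l =
      EXC2_sum b fun n => if (M.testBit n && (Nat.ble 2 n && !M.testBit (n - 2))) = true then F (EXC2_dec n)
        else 0 := by
  rw [EXC2_sum_eq]
  unfold remv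
  rw [Finset.sum_filter, EXC2_sumS h hb]
  refine Finset.sum_congr rfl fun n _ => ?_
  have h0 : 1 ≤ (EXC2_dec n).2 ↔ 2 ≤ n := by
    unfold EXC2_dec
    simp only
    omega
  by_cases h2 : M.testBit n = true
  · rw [if_pos h2]
    by_cases h3 : 2 ≤ n
    · have h1 : dn 1 (EXC2_dec n) ∉ S ↔ M.testBit (n - 2) = false := by
        rw [h, EXC2_enc_dn 1 n (h0.mpr h3), Bool.not_eq_true]
      by_cases h4 : M.testBit (n - 2) = false
      · rw [if_pos ⟨h0.mpr h3, h1.mpr h4⟩, if_pos (by rw [h2, h4, Nat.ble_eq_true_of_le h3]; rfl)]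
      · rw [if_neg (fun h5 => h4 (h1.mp h5.2))]
        rw [Bool.not_eq_false] at h4
        rw [if_neg (by rw [h2, h4, Nat.ble_eq_true_of_le h3]; decide)]
    · rw [if_neg (fun h5 => h3 (h0.mp h5.1))]
      have h6 : Nat.ble 2 n = false := by
        rw [← Bool.not_eq_true]
        intro h7
        exact h3 (Nat.le_of_ble_eq_true h7)
      rw [if_neg (by rw [h2, h6]; simp)]
  · rw [if_neg h2]
    rw [Bool.not_eq_true] at h2
    rw [if_neg (by rw [h2]; simp)]

/-! ### Number of paths -/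

def EXC2_np (b M₀ : ℕ) : ℕ → ℕ → ℕ
  | 0, M => if Nat.beq M₀ M = true then 1 else 0
  | k + 1, M => EXC2_sum b fun n =>
      if (M.testBit n && (Nat.ble 2 n && !M.testBit (n - 2))) = true then
        EXC2_np b M₀ k (EXC2_flip M n (n - 2)) else 0

theorem EXC2_np_eq (hNPR : NPR_stmt) {b M₀ : ℕ} {S₀ : St} (h₀ : EXC2_Rel M₀ S₀) : ∀ (k M : ℕ) (S : St),
    EXC2_Rel M S → EXC2_Bd b M → np k S₀ S = EXC2_np b M₀ k M := by
  intro k
  induction k with
  | zero =>
    intro M S h hb
    unfold np paths EXC2_np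
    by_cases h1 : S₀ = S
    · subst h1
      have h2 := EXC2_uniq' h₀ h
      subst h2
      rw [if_pos rfl, if_pos (Nat.beq_refl _)]
      rfl
    · rw [if_neg h1, if_neg]
      · rfl
      · intro h2
        have h3 := Nat.eq_of_beq_eq_true h2
        subst h3
        exact h1 (EXC2_uniq h₀ h)
  | succ k ih =>
    intro M S h hb
    rw [(hNPR k S₀ S).1, EXC2_sumR h hb]
    unfold EXC2_np
    rw [EXC2_sum_eq, EXC2_sum_eq]
    refine Finset.sum_congr rfl fun n hn => ?_
    rw [Finset.mem_range] at hn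
    by_cases h1 : (M.testBit n && (Nat.ble 2 n && !M.testBit (n - 2))) = true
    · rw [if_pos h1, if_pos h1]
      rw [Bool.and_eq_true, Bool.and_eq_true, Bool.not_eq_true'] at h1
      obtain ⟨h2, h3, h4⟩ := h1
      have h5 : 2 ≤ n := Nat.le_of_ble_eq_true h3
      have h6 : 1 ≤ (EXC2_dec n).2 := by
        unfold EXC2_dec
        simp only
        omega
      have h7 : EXC2_dec n ∈ S := by rw [h, EXC2_enc_dec]; exact h2
      have h8 : dn 1 (EXC2_dec n) ∉ S := by
        rw [h, EXC2_enc_dn 1 n h6, Bool.not_eq_true]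
        exact h4
      have h9 := EXC2_flip_rel h h7 h8
      rw [EXC2_enc_dec, EXC2_enc_dn 1 n h6] at h9
      exact ih _ _ h9 (EXC2_flip_bd hb le_rfl hn (by omega))
    · rw [if_neg h1, if_neg h1]

/-- first-step recursion of the number of paths -/
theorem EXC2_np_first (k : ℕ) (S S' : St) : np (k + 1) S S' = ∑ l ∈ addable 1 S, np k (move 1 S l) S' := by
  unfold np
  rw [paths, Finset.card_biUnion]
  · refine Finset.sum_congr rfl fun l _ => ?_
    exact Finset.card_image_of_injective _ (List.cons_injective)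
  · intro l _ l' _ hne
    rw [Function.onFun, Finset.disjoint_left]
    intro w hw hw'
    rw [Finset.mem_image] at hw hw'
    obtain ⟨u, -, rfl⟩ := hw
    obtain ⟨u', -, h⟩ := hw'
    exact hne (List.cons.inj h).1.symm

def EXC2_R (G : ℕ → ℕ → ℤ) : ℕ → ℕ → ℕ → ℤ
  | 0, b, M => G b M
  | k + 1, b, M => EXC2_sum b fun n =>
      if (M.testBit n && !M.testBit (n + 2 * 1)) = true then EXC2_R G k (b + 2) (EXC2_flip M n (n + 2)) else 0

theorem EXC2_R_eq (hNPR : NPR_stmt) (G : ℕ → ℕ → ℤ) (F : St → ℤ) : ∀ (k b M : ℕ) (S : St),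
    (∀ b' M' S', b + 2 * k = b' → EXC2_Rel M' S' → EXC2_Bd b' M' → F S' = G b' M') →
    EXC2_Rel M S → EXC2_Bd b M →
    ∑ T ∈ ends k S, (np k S T : ℤ) * F T = EXC2_R G k b M := by
  intro k
  induction k with
  | zero =>
    intro b M S hG h hb
    have h1 : ends 0 S = {S} := rfl
    have h2 : np 0 S S = 1 := by
      unfold np paths
      rw [if_pos rfl]
      rfl
    rw [h1, Finset.sum_singleton, h2, Nat.cast_one, one_mul]
    exact hG b M S (by omega) h hb
  | succ k ih =>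
    intro b M S hG h hb
    have hsub : ∀ l ∈ addable 1 S, ends k (move 1 S l) ⊆ ends (k + 1) S := by
      intro l hl T hT
      rw [ends, Finset.mem_biUnion]
      exact ⟨l, hl, hT⟩
    have h1 : ∑ T ∈ ends (k + 1) S, (np (k + 1) S T : ℤ) * F T =
        ∑ l ∈ addable 1 S, ∑ T ∈ ends k (move 1 S l), (np k (move 1 S l) T : ℤ) * F T := by
      have h2 : ∀ T ∈ ends (k + 1) S, (np (k + 1) S T : ℤ) * F T =
          ∑ l ∈ addable 1 S, (np k (move 1 S l) T : ℤ) * F T := by
        intro T _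
        rw [EXC2_np_first, Nat.cast_sum, Finset.sum_mul]
      rw [Finset.sum_congr rfl h2, Finset.sum_comm]
      refine Finset.sum_congr rfl fun l hl => ?_
      symm
      apply Finset.sum_subset (hsub l hl)
      intro T _ hT
      have h3 : np k (move 1 S l) T = 0 := by
        by_contra h4
        exact hT (((hNPR k (move 1 S l) T).2.2).mpr h4)
      rw [h3, Nat.cast_zero, zero_mul]
    rw [h1, EXC2_sumA h hb]
    unfold EXC2_R
    rw [EXC2_sum_eq, EXC2_sum_eq]
    refine Finset.sum_congr rfl fun n hn => ?_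
    rw [Finset.mem_range] at hn
    by_cases h2 : (M.testBit n && !M.testBit (n + 2 * 1)) = true
    · rw [if_pos h2, if_pos h2]
      rw [Bool.and_eq_true, Bool.not_eq_true'] at h2
      have h3 : EXC2_dec n ∈ S := by rw [h, EXC2_enc_dec]; exact h2.1
      have h4 : up 1 (EXC2_dec n) ∉ S := by
        rw [h, EXC2_enc_up, EXC2_enc_dec, Bool.not_eq_true]
        exact h2.2
      have h5 := EXC2_flip_rel h h3 h4
      rw [EXC2_enc_dec, EXC2_enc_up, EXC2_enc_dec] at h5
      refine ih (b + 2) _ _ ?_ h5 (EXC2_flip_bd hb (by omega) (by omega) (by omega))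
      intro b' M' S' hb' hR hB
      exact hG b' M' S' (by omega) hR hB
    · rw [if_neg h2, if_neg h2]

def EXC2_A (p : ℕ → ℕ → Bool) : ℕ → ℕ → ℕ → Bool
  | 0, b, M => p b M
  | k + 1, b, M => (List.range b).all fun n =>
      !(M.testBit n && !M.testBit (n + 2 * 1)) || EXC2_A p k (b + 2) (EXC2_flip M n (n + 2))

theorem EXC2_A_eq (p : ℕ → ℕ → Bool) (F : St → Prop) : ∀ (k b M : ℕ) (S : St),
    (∀ b' M' S', b + 2 * k = b' → EXC2_Rel M' S' → EXC2_Bd b' M' → p b' M' = true → F S') →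
    EXC2_Rel M S → EXC2_Bd b M → EXC2_A p k b M = true → ∀ T ∈ ends k S, F T := by
  intro k
  induction k with
  | zero =>
    intro b M S hG h hb hA T hT
    have h1 : ends 0 S = {S} := rfl
    rw [h1, Finset.mem_singleton] at hT
    subst hT
    exact hG b M T (by omega) h hb hA
  | succ k ih =>
    intro b M S hG h hb hA T hT
    rw [ends, Finset.mem_biUnion] at hT
    obtain ⟨l, hl, hT⟩ := hT
    unfold addable at hl
    rw [Finset.mem_filter] at hl
    obtain ⟨h3, h4⟩ := hl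
    have h5 := EXC2_flip_rel h h3 h4
    rw [EXC2_enc_up] at h5
    have h6 := (h l).mp h3
    have h7 : M.testBit (EXC2_enc l + 2 * 1) = false := by
      rw [← Bool.not_eq_true, ← EXC2_enc_up, ← h]
      exact h4
    have hn := hb _ h6
    unfold EXC2_A at hA
    rw [List.all_eq_true] at hA
    have h8 := hA (EXC2_enc l) (List.mem_range.mpr hn)
    rw [h6, h7] at h8
    have h9 : EXC2_A p k (b + 2) (EXC2_flip M (EXC2_enc l) (EXC2_enc l + 2)) = true := by
      simpa using h8
    refine ih (b + 2) _ _ ?_ h5 (EXC2_flip_bd hb (by omega) (by omega) (by omega)) h9 T hT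
    intro b' M' S' hb' hR hB
    exact hG b' M' S' (by omega) hR hB

/-! ### Legs, potential -/

def EXC2_cnt (M n a : ℕ) : ℕ := EXC2_sum a fun j => if (Nat.ble 1 j && M.testBit (n + 2 * j)) = true then 1 else 0

theorem EXC2_cnt_eq {M : ℕ} {S : St} (h : EXC2_Rel M S) (l : Lab) (a : ℕ) :
    cnt S l a = EXC2_cnt M (EXC2_enc l) a := by
  unfold cnt EXC2_cnt
  rw [EXC2_sum_eq, ← Finset.card_filter]
  have henc : ∀ j, EXC2_enc (l.1, l.2 + j) = EXC2_enc l + 2 * j := by
    intro j
    unfold EXC2_enc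
    simp only
    ring
  refine Finset.card_nbij' (fun y => y.2 - l.2) (fun j => (l.1, l.2 + j)) ?_ ?_ ?_ ?_
  · intro y hy
    rw [Finset.mem_coe, Finset.mem_filter] at hy
    obtain ⟨h1, h2, h3, h4⟩ := hy
    rw [Finset.mem_coe, Finset.mem_filter, Finset.mem_range]
    refine ⟨?_, ?_⟩
    · simp only
      omega
    · rw [Bool.and_eq_true]
      refine ⟨Nat.ble_eq_true_of_le ?_, ?_⟩
      · simp only
        omega
      · simp only
        rw [← henc]
        have h5 : ((l.1, l.2 + (y.2 - l.2)) : Lab) = y := by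
          refine Prod.ext h2.symm ?_
          simp only
          omega
        rw [h5]
        exact (h y).mp h1
  · intro j hj
    rw [Finset.mem_coe, Finset.mem_filter, Finset.mem_range, Bool.and_eq_true] at hj
    obtain ⟨h1, h2, h3⟩ := hj
    have h4 := Nat.le_of_ble_eq_true h2
    rw [Finset.mem_coe, Finset.mem_filter]
    refine ⟨?_, rfl, ?_, ?_⟩
    · rw [h, henc]
      exact h3
    · simp only
      omega
    · simp only
      omega
  · intro y hy
    rw [Finset.mem_coe, Finset.mem_filter] at hy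
    obtain ⟨h1, h2, h3, h4⟩ := hy
    refine Prod.ext h2.symm ?_
    simp only
    omega
  · intro j _
    simp only
    omega

def EXC2_ptF (t : Bool) (K n : ℕ) : ℤ :=
  Int.ofNat ((n / 2) * (n / 2) + n / 2 + 2 * tb t (decide (n % 2 = 1)) * (n / 2)) - Int.ofNat (2 * K * (n / 2))

def EXC2_pt (t : Bool) (K b M : ℕ) : ℤ := EXC2_sum b fun n => if M.testBit n = true then EXC2_ptF t K n else 0

theorem EXC2_pt_eq {M b : ℕ} {S : St} (h : EXC2_Rel M S) (hb : EXC2_Bd b M) (t : Bool) (K : ℕ) :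
    pt t K S = EXC2_pt t K b M := by
  unfold pt EXC2_pt
  rw [EXC2_sum_eq, EXC2_sumS h hb]
  refine Finset.sum_congr rfl fun n _ => ?_
  have h1 : ((EXC2_dec n).2 : ℤ) ^ 2 + (EXC2_dec n).2 - 2 * K * (EXC2_dec n).2 +
      2 * tb t (EXC2_dec n).1 * (EXC2_dec n).2 = EXC2_ptF t K n := by
    unfold EXC2_ptF EXC2_dec
    simp only [Int.ofNat_eq_natCast]
    push_cast
    ring
  rw [h1]

/-! ### The empty state -/

def EXC2_b (s : Bool) (K : ℕ) : ℕ := (2 ^ (2 * K) - 1) ^^^ 2 ^ (2 * K + s.toNat)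

theorem EXC2_b_rel (s : Bool) (K : ℕ) : EXC2_Rel (EXC2_b s K) (base s K) := by
  intro l
  unfold EXC2_b base vac
  rw [Nat.testBit_xor, Nat.testBit_two_pow_sub_one, Nat.testBit_two_pow, Finset.mem_insert,
    Finset.mem_product, Finset.mem_range]
  obtain ⟨c, i⟩ := l
  have hc := EXC2_enc_lt (c, i)
  simp only at hc
  have hs : s.toNat < 2 := by cases s <;> decide
  have h1 : EXC2_enc (c, i) < 2 * K ↔ i < K := by
    unfold EXC2_enc
    simp only
    omega
  have h2 : 2 * K + s.toNat = EXC2_enc (c, i) ↔ i = K ∧ c = s := by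
    unfold EXC2_enc
    simp only
    constructor
    · intro h
      refine ⟨by omega, ?_⟩
      have h3 : c.toNat = s.toNat := by omega
      revert h3
      cases c <;> cases s <;> decide
    · rintro ⟨rfl, rfl⟩
      rfl
  have h3 : ((c, i) : Lab) = (s, K) ↔ i = K ∧ c = s := by
    rw [Prod.mk.injEq]
    tauto
  rw [h3]
  by_cases h4 : i < K
  · have h5 : ¬ (i = K ∧ c = s) := by omega
    simp only [h1.mpr h4, h2, h5, h4]
    simp
  · have h6 : ¬ EXC2_enc (c, i) < 2 * K := fun h => h4 (h1.mp h)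
    simp only [h6, h2, h4]
    simp

theorem EXC2_b_bd (s : Bool) (K : ℕ) : EXC2_Bd (2 * K + 2) (EXC2_b s K) := by
  intro n hn
  unfold EXC2_b at hn
  rw [Nat.testBit_xor, Nat.testBit_two_pow_sub_one, Nat.testBit_two_pow] at hn
  have hs : s.toNat < 2 := by cases s <;> decide
  by_contra hc
  have h1 : ¬ n < 2 * K := by omega
  have h2 : ¬ 2 * K + s.toNat = n := by omega
  simp [h1, h2] at hn

/-! ### The inner sum -/

def EXC2_sgn (k : ℕ) : ℤ := if Nat.beq (k % 2) 0 = true then 1 else -1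

theorem EXC2_sgn_eq (k : ℕ) : (-1 : ℤ) ^ k = EXC2_sgn k := by
  unfold EXC2_sgn
  by_cases h : k % 2 = 0
  · rw [h, if_pos (Nat.beq_refl 0)]
    exact Even.neg_one_pow (Nat.even_iff.mpr h)
  · have h1 : k % 2 = 1 := by omega
    rw [h1, if_neg (by decide)]
    exact Odd.neg_one_pow (Nat.odd_iff.mpr h1)

/-- `o0` with the potentials given -/
def EXC2_o (r i : ℕ) (pb p : ℤ) : ℤ := - (i : ℤ) * (i + 1) + (p - pb) + 2 * r * i

def EXC2_off (K r ds j i i' : ℕ) (pb pT pT' : ℤ) (x : ℕ) : ℤ :=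
  EXC2_o r i pb pT + (- (i' : ℤ) * (i' + 1) + (pT' - pb) + 2 * ((r : ℤ) - 1 - j) * i' +
    2 * ((ds : ℤ) + x - K) + 2 * j * i)

def EXC2_G (t : Bool) (K r ds j i' c Mb : ℕ) (pb z2 : ℤ) (b M : ℕ) : ℤ :=
  EXC2_sum b fun n => if (M.testBit n && !M.testBit (n + 2 * c)) = true then
    (if EXC2_off K r ds j (i' + c) i' pb (EXC2_pt t K (b + 2 * c) (EXC2_flip M n (n + 2 * c)))
        (EXC2_pt t K b M) (n / 2 + c + tb t (decide (n % 2 = 1))) = z2 then
      EXC2_sgn (EXC2_cnt M n c) * Int.ofNat (EXC2_np (b + 2 * c) Mb (i' + c) (EXC2_flip M n (n + 2 * c)))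
    else 0) else 0

theorem EXC2_inner (hNPR : NPR_stmt) (t s : Bool) (K : ℕ) (ρ : List ℕ) (j i' c ds : ℕ) (z2 : ℤ)
    (hds : (ρ.drop (j + 1)).sum = ds) :
    ∑ T ∈ ends i' (base s K), ∑ l ∈ addable c T,
      (if off t s K ρ j (i' + c) i' (move c T l) T (l.2 + c + tb t l.1) = z2 then
        (-1 : ℚ) ^ cnt T l c * (np (i' + c) (base s K) (move c T l) * np i' (base s K) T) /
          ((i' + c).factorial * i'.factorial)
      else 0) =
    ((EXC2_R (EXC2_G t K ρ.length ds j i' c (EXC2_b s K) (EXC2_pt t K (2 * K + 2) (EXC2_b s K)) z2) i'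
      (2 * K + 2) (EXC2_b s K) : ℤ) : ℚ) / ((i' + c).factorial * i'.factorial) := by
  have hb := EXC2_b_rel s K
  have hbd := EXC2_b_bd s K
  rw [← EXC2_R_eq hNPR _ (fun T => ∑ l ∈ addable c T,
      if off t s K ρ j (i' + c) i' (move c T l) T (l.2 + c + tb t l.1) = z2 then
        (-1 : ℤ) ^ cnt T l c * (np (i' + c) (base s K) (move c T l) : ℤ) else 0) i' (2 * K + 2) _ (base s K) ?_
      hb hbd]
  · push_cast
    rw [Finset.sum_div]
    refine Finset.sum_congr rfl fun T _ => ?_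
    rw [Finset.mul_sum, Finset.sum_div]
    refine Finset.sum_congr rfl fun l _ => ?_
    by_cases h : off t s K ρ j (i' + c) i' (move c T l) T (l.2 + c + tb t l.1) = z2
    · rw [if_pos h, if_pos h]
      ring
    · rw [if_neg h, if_neg h]
      simp
  · intro b M T _ hR hB
    rw [EXC2_sumA hR hB]
    unfold EXC2_G
    rw [EXC2_sum_eq, EXC2_sum_eq]
    refine Finset.sum_congr rfl fun n hn => ?_
    rw [Finset.mem_range] at hn
    by_cases h2 : (M.testBit n && !M.testBit (n + 2 * c)) = true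
    · rw [if_pos h2, if_pos h2]
      rw [Bool.and_eq_true, Bool.not_eq_true'] at h2
      have h3 : EXC2_dec n ∈ T := by rw [hR, EXC2_enc_dec]; exact h2.1
      have h4 : up c (EXC2_dec n) ∉ T := by
        rw [hR, EXC2_enc_up, EXC2_enc_dec, Bool.not_eq_true]
        exact h2.2
      have h5 := EXC2_flip_rel hR h3 h4
      rw [EXC2_enc_dec, EXC2_enc_up, EXC2_enc_dec] at h5
      have h5' : EXC2_Rel (EXC2_flip M n (n + 2 * c)) (move c T (EXC2_dec n)) := h5
      have h6 : EXC2_Bd (b + 2 * c) (EXC2_flip M n (n + 2 * c)) :=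
        EXC2_flip_bd hB (by omega) (by omega) (by omega)
      have h7 : off t s K ρ j (i' + c) i' (move c T (EXC2_dec n)) T
          (((EXC2_dec n).2 : ℤ) + c + tb t (EXC2_dec n).1) =
          EXC2_off K ρ.length ds j (i' + c) i' (EXC2_pt t K (2 * K + 2) (EXC2_b s K))
            (EXC2_pt t K (b + 2 * c) (EXC2_flip M n (n + 2 * c))) (EXC2_pt t K b M)
            (n / 2 + c + tb t (decide (n % 2 = 1))) := by
        unfold off o0 EXC2_off EXC2_o
        rw [EXC2_pt_eq h5' h6, EXC2_pt_eq hR hB, EXC2_pt_eq hb hbd, hds]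
        unfold EXC2_dec
        push_cast
        ring
      rw [h7, EXC2_cnt_eq hR, EXC2_enc_dec, EXC2_np_eq hNPR hb _ _ _ h5' h6, EXC2_sgn_eq]
      rfl
    · rw [if_neg h2, if_neg h2]

/-! ### The hole condition -/

def EXC2_hole (t s : Bool) (K r J : ℕ) (z : ℤ) : Bool :=
  EXC2_A (fun b M => !decide (EXC2_o r J (EXC2_pt t K (2 * K + 2) (EXC2_b s K)) (EXC2_pt t K b M) = z)) J
    (2 * K + 2) (EXC2_b s K)

theorem EXC2_hole_eq (t s : Bool) (K r J : ℕ) (z : ℤ) (h : EXC2_hole t s K r J z = true) :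
    ∀ T ∈ ends J (base s K), o0 t s K r J T ≠ z := by
  have hb := EXC2_b_rel s K
  have hbd := EXC2_b_bd s K
  refine EXC2_A_eq _ _ J (2 * K + 2) (EXC2_b s K) (base s K) ?_ hb hbd h
  intro b M T _ hR hB hp
  have h1 : o0 t s K r J T = EXC2_o r J (EXC2_pt t K (2 * K + 2) (EXC2_b s K)) (EXC2_pt t K b M) := by
    unfold o0 EXC2_o
    rw [EXC2_pt_eq hR hB, EXC2_pt_eq hb hbd]
  rw [h1]
  simpa using hp

theorem EXC2_entry (hNPR : NPR_stmt) (t s : Bool) (K : ℕ) (ρ : List ℕ) (j J : ℕ) (z : ℤ) (c i' ds : ℕ)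
    (hc : ρ.getD j 0 = c) (hcJ : c < 2 * J) (hip : ip J c = i') (hds : (ρ.drop (j + 1)).sum = ds) :
    (if ρ.getD j 0 < 2 * J then
      ∑ T ∈ ends (ip J (ρ.getD j 0)) (base s K), ∑ l ∈ addable (ρ.getD j 0) T,
        if off t s K ρ j (ip J (ρ.getD j 0) + ρ.getD j 0) (ip J (ρ.getD j 0)) (move (ρ.getD j 0) T l) T
            (l.2 + ρ.getD j 0 + tb t l.1) = 2 * z then
          (-1 : ℚ) ^ cnt T l (ρ.getD j 0) *
            (np (ip J (ρ.getD j 0) + ρ.getD j 0) (base s K) (move (ρ.getD j 0) T l) *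
              np (ip J (ρ.getD j 0)) (base s K) T) /
            ((ip J (ρ.getD j 0) + ρ.getD j 0).factorial * (ip J (ρ.getD j 0)).factorial)
        else 0
      else 0) =
    ((EXC2_R (EXC2_G t K ρ.length ds j i' c (EXC2_b s K) (EXC2_pt t K (2 * K + 2) (EXC2_b s K)) (2 * z)) i'
      (2 * K + 2) (EXC2_b s K) : ℤ) : ℚ) / ((i' + c).factorial * i'.factorial) := by
  rw [hc, if_pos hcJ, hip]
  exact EXC2_inner hNPR t s K ρ j i' c ds (2 * z) hds

theorem EXC2_B3 (hCRIT : CRIT_stmt) (hNPR : NPR_stmt) : Neg true [3] := by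
  have hval : EXC2_R (EXC2_G true 9 ([3] : List ℕ).length 0 0 2 3 (EXC2_b false 9)
      (EXC2_pt true 9 (2 * 9 + 2) (EXC2_b false 9)) (2 * (-2))) 2 (2 * 9 + 2) (EXC2_b false 9) = -30 := by
    decide +kernel
  have hL : Lq true 9 [3] 4 (-2) < 0 := by
    unfold Lq
    rw [Fintype.sum_bool, if_pos (show (true && true) = true from rfl),
      if_neg (show ¬ (true && false) = true by decide),
      show Finset.range ([3] : List ℕ).length = Finset.range 1 from rfl, Finset.sum_range_one,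
      EXC2_entry hNPR true false 9 [3] 0 4 (-2) 3 2 0 rfl (by norm_num) rfl rfl, hval]
    norm_num [Nat.factorial]
  have hH : Hole true 9 1 4 (-2) := by
    intro s hs T hT
    have h1 : s = false := by
      cases s
      · rfl
      · exact absurd rfl hs
    subst h1
    exact EXC2_hole_eq true false 9 1 4 (-2) (by decide +kernel) T hT
  exact hCRIT true 9 [3] 4 (-2) (by intro a ha; rw [List.mem_singleton] at ha; subst ha; decide) (by norm_num)
    (by norm_num) hH hL

theorem EXC2_D3 (hCRIT : CRIT_stmt) (hNPR : NPR_stmt) : Neg false [3] := by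
  have hval : ∀ s : Bool, EXC2_R (EXC2_G false 7 ([3] : List ℕ).length 0 0 0 3 (EXC2_b s 7)
      (EXC2_pt false 7 (2 * 7 + 2) (EXC2_b s 7)) (2 * (-2))) 0 (2 * 7 + 2) (EXC2_b s 7) = -1 := by
    decide +kernel
  have hL : Lq false 7 [3] 2 (-2) < 0 := by
    unfold Lq
    rw [Fintype.sum_bool, if_neg (show ¬ (false && true) = true by decide),
      if_neg (show ¬ (false && false) = true by decide),
      show Finset.range ([3] : List ℕ).length = Finset.range 1 from rfl, Finset.sum_range_one,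
      Finset.sum_range_one,
      EXC2_entry hNPR false true 7 [3] 0 2 (-2) 3 0 0 rfl (by norm_num) rfl rfl,
      EXC2_entry hNPR false false 7 [3] 0 2 (-2) 3 0 0 rfl (by norm_num) rfl rfl, hval, hval]
    norm_num [Nat.factorial]
  have hh : ∀ s : Bool, EXC2_hole false s 7 1 2 (-2) = true := by decide +kernel
  have hH : Hole false 7 1 2 (-2) := by
    intro s _ T hT
    exact EXC2_hole_eq false s 7 1 2 (-2) (hh s) T hT
  exact hCRIT false 7 [3] 2 (-2) (by intro a ha; rw [List.mem_singleton] at ha; subst ha; decide) (by norm_num)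
    (by norm_num) hH hL

theorem EXC2_D35 (hCRIT : CRIT_stmt) (hNPR : NPR_stmt) : Neg false [3, 5] := by
  have hval0 : ∀ s : Bool, EXC2_R (EXC2_G false 14 ([5, 3] : List ℕ).length 3 0 1 5 (EXC2_b s 14)
      (EXC2_pt false 14 (2 * 14 + 2) (EXC2_b s 14)) (2 * 10)) 1 (2 * 14 + 2) (EXC2_b s 14) = -3 := by
    decide +kernel
  have hval1 : ∀ s : Bool, EXC2_R (EXC2_G false 14 ([5, 3] : List ℕ).length 0 1 2 3 (EXC2_b s 14)
      (EXC2_pt false 14 (2 * 14 + 2) (EXC2_b s 14)) (2 * 10)) 2 (2 * 14 + 2) (EXC2_b s 14) = 0 := by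
    decide +kernel
  have hL : Lq false 14 [5, 3] 4 10 < 0 := by
    unfold Lq
    rw [Fintype.sum_bool, if_neg (show ¬ (false && true) = true by decide),
      if_neg (show ¬ (false && false) = true by decide),
      show Finset.range ([5, 3] : List ℕ).length = Finset.range 2 from rfl, Finset.sum_range_succ,
      Finset.sum_range_one, Finset.sum_range_succ, Finset.sum_range_one,
      EXC2_entry hNPR false true 14 [5, 3] 0 4 10 5 1 3 rfl (by norm_num) rfl rfl,
      EXC2_entry hNPR false true 14 [5, 3] 1 4 10 3 2 0 rfl (by norm_num) rfl rfl,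
      EXC2_entry hNPR false false 14 [5, 3] 0 4 10 5 1 3 rfl (by norm_num) rfl rfl,
      EXC2_entry hNPR false false 14 [5, 3] 1 4 10 3 2 0 rfl (by norm_num) rfl rfl, hval0, hval0, hval1, hval1]
    norm_num [Nat.factorial]
  have hh : ∀ s : Bool, EXC2_hole false s 14 2 4 10 = true := by decide +kernel
  have hH : Hole false 14 2 4 10 := by
    intro s _ T hT
    exact EXC2_hole_eq false s 14 2 4 10 (hh s) T hT
  exact hCRIT false 14 [5, 3] 4 10 (by
      intro a ha
      rw [List.mem_cons, List.mem_singleton] at ha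
      rcases ha with rfl | rfl <;> decide) (by norm_num)
    (by norm_num) hH hL

theorem EXC2 (hCRIT : CRIT_stmt) (hNPR : NPR_stmt) : EXC2_stmt :=
  ⟨EXC2_B3 hCRIT hNPR, EXC2_D3 hCRIT hNPR, EXC2_D35 hCRIT hNPR⟩

end Pool.Agent.PN
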